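import Pool.Agent.Q8.WCO.Stmt

/-!
# MP_9100ee_an, Q1: weight symbols of normal weighted composition operators

A function of the Hardy space `H²` is given by the sequence of its Taylor coefficients, an element
of `ℓ²(ℕ)`, and `f.value z = ∑ f n zⁿ` is its value at the point `z` of the disc.
-/

set_option autoImplicit false

namespace Pool.Agent.Results.MP_9100ee_an.NormalWeights

open Q8.WCO

/-- Let `φ(z) = (a z + b) / (c z + d)`, `a d - b c ≠ 0`, be a linear fractional self-map of the unit
disc, let `ψ` be a function on the disc and `W` a bounded operator on `H²` with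
`(W f)(z) = ψ(z) f(φ(z))` for all `f` in `H²` and `z` in the disc. If `W` is normal, then
`ψ(z) = k / (c z + d)` on the disc, for a constant `k`; in particular `ψ` is linear fractional or
zero. -/
theorem result (a b c d : ℂ) (hφ : IsSelfMap a b c d) (ψ : ℂ → ℂ) (W : Hardy →L[ℂ] Hardy)
    (hW : IsWeightedComp W ψ (fun z => (a * z + b) / (c * z + d))) (hN : IsNormalOp W) :
    ∃ k : ℂ, ∀ z : ℂ, ‖z‖ < 1 → ψ z = k / (c * z + d) :=
  main' hφ ψ W hW hN

end Pool.Agent.Results.MP_9100ee_an.NormalWeights
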